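import Pool.Agent.H947R2.TP.Stubs

open MeasureTheory Filter Topology Set
open scoped ENNReal

namespace H947TP

theorem L2 (hP1 : St_P1) : St_L2 := by
  intro D n b δ ε Λ U hδ hδ1 hD hn hε hsep v hv hv0
  obtain ⟨vs, hvs, ht⟩ := hv
  by_contra hcon
  push Not at hcon
  have h1 : ∀ k, ∀ᶠ m in (U : Filter ℕ), Nk b δ (ε m) k (vs m) < 1 := by
    intro k
    have hc : Continuous (Phi b δ k) := (hP1 D n b δ k hδ hδ1 hD hn).2.2.2.2.1
    have h2 : Tendsto (fun m => Nk b δ (ε m) k (vs m)) U (𝓝 (|v k| + 0 * Phi b δ k v)) := by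
      unfold Nk
      refine Tendsto.add ?_ (hε.mul ((hc.tendsto v).comp ht))
      exact (continuous_abs.tendsto _).comp (((continuous_apply k).tendsto v).comp ht)
    have h3 : |v k| + 0 * Phi b δ k v < 1 := by
      rw [zero_mul, add_zero]
      exact hcon k
    exact h2.eventually (gt_mem_nhds h3)
  have h4 : ∀ᶠ m in (U : Filter ℕ), vs m ≠ 0 := ht.eventually_ne hv0
  obtain ⟨m, hm1, hm2⟩ := ((eventually_all.2 h1).and h4).exists
  obtain ⟨k, hk⟩ := hsep m (vs m) (hvs m) hm2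
  exact absurd (hm1 k) (not_lt.2 hk)

end H947TP


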